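import Pool.Agent.W85.EC.Lat

/-! # EC-P2: entire continuation of the L-functions of `ℤ[i]` modulo `M` -/

set_option autoImplicit false
set_option maxHeartbeats 4000000

open Filter Topology

namespace Pool.Agent.W85.EC

open Pool.Agent.W78.GA Pool.Agent.W78.EC

section

variable {M : ℕ} {φ : Gi → ℂ}

/-- one-dimensional theta series -/
noncomputable def th1 (M : ℕ) (r : Fin M) (t : ℝ) : ℝ :=
  ∑' x : ℤ, Real.exp (-(t * ((((r : ℕ) : ℤ) : ℝ) + M * x : ℝ) ^ 2))

theorem th1_hasSum [NeZero M] (r : Fin M) {t : ℝ} (ht : 0 < t) :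
    HasSum (fun x : ℤ => Real.exp (-(t * ((((r : ℕ) : ℤ) : ℝ) + M * x : ℝ) ^ 2))) (th1 M r t) := by
  apply Summable.hasSum
  have h1 := (summ_exp ht).comp_injective
    (i := fun x : ℤ => (⟨((r : ℕ) : ℤ) + M * x, 0⟩ : Gi)) (fun x y h => by
      have h2 := congrArg QuadraticAlgebra.re h
      simp only at h2
      have hM : (M : ℤ) ≠ 0 := by exact_mod_cast NeZero.ne M
      exact mul_left_cancel₀ hM (by linarith))
  refine h1.congr fun x => ?_
  simp only [Function.comp_apply]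
  rw [nmR]
  congr 1
  push_cast
  ring

/-- the decomposition into classes -/
noncomputable def EM (M : ℕ) [NeZero M] : (Fin M × Fin M) × (ℤ × ℤ) ≃ Gi :=
  (Equiv.prodComm _ _).trans ((Equiv.prodProdProdComm ℤ ℤ (Fin M) (Fin M)).trans
    (((Int.divModEquiv M).symm.prodCongr (Int.divModEquiv M).symm).trans
      ⟨fun p => ⟨p.1, p.2⟩, fun z => (z.re, z.im), fun _ => rfl, fun _ => rfl⟩))

theorem EM_re [NeZero M] (w : (Fin M × Fin M) × (ℤ × ℤ)) :
    (EM M w).re = w.2.1 * M + ((w.1.1 : ℕ) : ℤ) := rfl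

theorem EM_im [NeZero M] (w : (Fin M × Fin M) × (ℤ × ℤ)) :
    (EM M w).im = w.2.2 * M + ((w.1.2 : ℕ) : ℤ) := rfl

theorem theta_dec [NeZero M] (h : HCh M φ) {t : ℝ} (ht : 0 < t) :
    4 * Fth (aL φ) t + φ 0 =
      ∑ w : Fin M × Fin M, φ (lift M w) * ((th1 M w.1 t * th1 M w.2 t : ℝ) : ℂ) := by
  have h1 := (EM M).hasSum_iff.2 (theta_eq h ht)
  have h2 : ∀ w : Fin M × Fin M, HasSum (fun c : ℤ × ℤ =>
      ((fun z : Gi => φ z * ((Real.exp (-(nm z : ℝ) * t) : ℝ) : ℂ)) ∘ (EM M)) (w, c))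
      (φ (lift M w) * ((th1 M w.1 t * th1 M w.2 t : ℝ) : ℂ)) := by
    intro w
    have e1 := th1_hasSum w.1 ht
    have e2 := th1_hasSum w.2 ht
    have e3 := e1.mul e2 (e1.summable.mul_of_nonneg e2.summable
      (fun _ => (Real.exp_pos _).le) (fun _ => (Real.exp_pos _).le))
    have e4 := (Complex.hasSum_ofReal.2 e3).mul_left (φ (lift M w))
    refine e4.congr_fun fun c => ?_
    simp only [Function.comp_apply]
    have e5 : φ (EM M (w, c)) = φ (lift M w) := by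
      apply h.per
      · rw [EM_re]; exact ⟨c.1, by show c.1 * M + _ - ((w.1 : ℕ) : ℤ) = _; ring⟩
      · rw [EM_im]; exact ⟨c.2, by show c.2 * M + _ - ((w.2 : ℕ) : ℤ) = _; ring⟩
    rw [e5, ← Real.exp_add]
    congr 3
    rw [nmR, EM_re, EM_im]
    push_cast
    ring
  exact (h1.prod_fiberwise h2).unique (hasSum_fintype _)

theorem asym1 (hT : S_THETA) [NeZero M] : ∃ c C : ℝ, 0 < c ∧ 0 < C ∧ ∀ r : Fin M, ∀ t : ℝ, 0 < t →
    t ≤ 1 → |th1 M r t - Real.sqrt (Real.pi / t) / M| ≤ C * Real.exp (-(c / t)) / Real.sqrt t := by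
  have hM : 1 ≤ M := Nat.one_le_iff_ne_zero.2 (NeZero.ne M)
  have h1 := fun r : Fin M => hT M ((r : ℕ) : ℤ) hM
  choose cr Cr hc hC hb using h1
  have : Nonempty (Fin M) := ⟨⟨0, hM⟩⟩
  obtain ⟨r1, hr1⟩ := Finite.exists_min cr
  refine ⟨cr r1, ∑ r, Cr r, hc r1, Finset.sum_pos (fun r _ => hC r) Finset.univ_nonempty,
    fun r t ht0 ht1 => ?_⟩
  refine (hb r t ht0 ht1).trans ?_
  have h2 : Cr r ≤ ∑ r, Cr r :=
    Finset.single_le_sum (f := Cr) (fun r _ => (hC r).le) (Finset.mem_univ r)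
  have h3 : Real.exp (-(cr r / t)) ≤ Real.exp (-(cr r1 / t)) := by
    apply Real.exp_le_exp.2
    apply neg_le_neg
    exact div_le_div_of_nonneg_right (hr1 r) ht0.le
  have := hC r
  have h4 : 0 ≤ ∑ r, Cr r := Finset.sum_nonneg fun r _ => (hC r).le
  gcongr

theorem asym2 (hT : S_THETA) [NeZero M] : ∃ c C : ℝ, 0 < c ∧ 0 < C ∧ ∀ r r' : Fin M, ∀ t : ℝ,
    0 < t → t ≤ 1 →
      |th1 M r t * th1 M r' t - Real.pi / (M : ℝ) ^ 2 / t| ≤ C * Real.exp (-(c / t)) / t := by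
  obtain ⟨c, C, hc, hC, hb⟩ := asym1 (M := M) hT
  have hM : (1 : ℝ) ≤ M := by exact_mod_cast Nat.one_le_iff_ne_zero.2 (NeZero.ne M)
  refine ⟨c, C * (4 + C), hc, by positivity, fun r r' t ht0 ht1 => ?_⟩
  have h1 := hb r t ht0 ht1
  have h2 := hb r' t ht0 ht1
  obtain ⟨S, hS⟩ : ∃ S, S = Real.sqrt (Real.pi / t) / M := ⟨_, rfl⟩
  obtain ⟨x, hx⟩ : ∃ x, x = th1 M r t := ⟨_, rfl⟩
  obtain ⟨y, hy⟩ : ∃ y, y = th1 M r' t := ⟨_, rfl⟩
  obtain ⟨w, hw⟩ : ∃ w, w = Real.sqrt t := ⟨_, rfl⟩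
  obtain ⟨e, he⟩ : ∃ e, e = Real.exp (-(c / t)) := ⟨_, rfl⟩
  rw [← hS, ← hx, ← hw, ← he] at h1
  rw [← hS, ← hy, ← hw, ← he] at h2
  rw [← hx, ← hy, ← he]
  have hw0 : 0 < w := hw ▸ Real.sqrt_pos.2 ht0
  have hw2 : w ^ 2 = t := hw ▸ Real.sq_sqrt ht0.le
  have he0 : 0 < e := he ▸ Real.exp_pos _
  have he1 : e ≤ 1 := by
    rw [he, Real.exp_le_one_iff]
    have : 0 < c / t := by positivity
    linarith
  have hS2 : S ^ 2 = Real.pi / (M : ℝ) ^ 2 / t := by
    rw [hS, div_pow, Real.sq_sqrt (by positivity)]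
    field_simp
  have hS0 : 0 ≤ S := by rw [hS]; positivity
  have hSw : S ≤ 2 / w := by
    rw [le_div_iff₀ hw0]
    have h3 : (S * w) ^ 2 ≤ 2 ^ 2 := by
      rw [mul_pow, hS2, hw2]
      have : Real.pi / (M : ℝ) ^ 2 / t * t = Real.pi / (M : ℝ) ^ 2 := by field_simp
      rw [this, div_le_iff₀ (by positivity)]
      have : (1 : ℝ) ≤ (M : ℝ) ^ 2 := one_le_pow₀ hM
      nlinarith [Real.pi_le_four, Real.pi_pos]
    exact (sq_le_sq₀ (by positivity) (by norm_num)).1 h3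
  have hyb : |y| ≤ (2 + C) / w := by
    have : |y| ≤ |y - S| + |S| := by
      have := abs_add_le (y - S) S
      simpa using this
    rw [abs_of_nonneg hS0] at this
    have h4 : C * e / w ≤ C / w := by
      apply div_le_div_of_nonneg_right _ hw0.le
      nlinarith
    have h5 : (2 + C) / w = 2 / w + C / w := by ring
    rw [h5]; linarith
  have h6 : x * y - S ^ 2 = (x - S) * y + S * (y - S) := by ring
  rw [← hS2, h6]
  refine (abs_add_le _ _).trans ?_
  rw [abs_mul, abs_mul, abs_of_nonneg hS0]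
  have h7 : |x - S| * |y| ≤ (C * e / w) * ((2 + C) / w) := by
    apply mul_le_mul h1 hyb (abs_nonneg _) (by positivity)
  have h8 : S * |y - S| ≤ (2 / w) * (C * e / w) :=
    mul_le_mul hSw h2 (abs_nonneg _) (by positivity)
  have h9 : C * (4 + C) * e / t = (C * e / w) * ((2 + C) / w) + (2 / w) * (C * e / w) := by
    rw [← hw2]; field_simp; ring
  rw [h9]
  linarith

/-- the sum of the values -/
noncomputable def Ph (M : ℕ) (φ : Gi → ℂ) : ℂ := ∑ w : Fin M × Fin M, φ (lift M w)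

theorem asym3 (hT : S_THETA) [NeZero M] (h : HCh M φ) : ∃ c C : ℝ, 0 < c ∧ ∀ t : ℝ, 0 < t →
    t ≤ 1 → ‖Fth (aL φ) t - (((Real.pi / (4 * (M : ℝ) ^ 2) : ℝ) : ℂ) * Ph M φ / t + -(φ 0) / 4)‖
      ≤ C * Real.exp (-(c / t)) / t := by
  obtain ⟨c, C, hc, hC, hb⟩ := asym2 (M := M) hT
  obtain ⟨K, hK0, hK⟩ := bounded h
  refine ⟨c, (M * M : ℕ) * (K * C) / 4, hc, fun t ht0 ht1 => ?_⟩
  have hM : (M : ℂ) ≠ 0 := by exact_mod_cast NeZero.ne M
  have htc : (t : ℂ) ≠ 0 := by exact_mod_cast ht0.ne'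
  have h1 : Fth (aL φ) t - (((Real.pi / (4 * (M : ℝ) ^ 2) : ℝ) : ℂ) * Ph M φ / t + -(φ 0) / 4)
      = (∑ w : Fin M × Fin M, φ (lift M w) *
        (((th1 M w.1 t * th1 M w.2 t - Real.pi / (M : ℝ) ^ 2 / t : ℝ)) : ℂ)) / 4 := by
    have h2 := theta_dec h ht0
    have h3 : ∑ w : Fin M × Fin M, φ (lift M w) *
        (((th1 M w.1 t * th1 M w.2 t - Real.pi / (M : ℝ) ^ 2 / t : ℝ)) : ℂ)
        = (∑ w : Fin M × Fin M, φ (lift M w) * ((th1 M w.1 t * th1 M w.2 t : ℝ) : ℂ))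
          - Ph M φ * ((Real.pi / (M : ℝ) ^ 2 / t : ℝ) : ℂ) := by
      rw [Ph, Finset.sum_mul, ← Finset.sum_sub_distrib]
      refine Finset.sum_congr rfl fun w _ => ?_
      rw [Complex.ofReal_sub]; ring
    rw [h3, ← h2]
    push_cast
    field_simp
    ring
  rw [h1, norm_div, Complex.norm_ofNat]
  have h4 : ‖∑ w : Fin M × Fin M, φ (lift M w) *
        (((th1 M w.1 t * th1 M w.2 t - Real.pi / (M : ℝ) ^ 2 / t : ℝ)) : ℂ)‖
      ≤ ∑ _w : Fin M × Fin M, K * (C * Real.exp (-(c / t)) / t) := by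
    refine (norm_sum_le _ _).trans (Finset.sum_le_sum fun w _ => ?_)
    rw [norm_mul, Complex.norm_real, Real.norm_eq_abs]
    exact mul_le_mul (hK _) (hb w.1 w.2 t ht0 ht1) (abs_nonneg _) hK0
  rw [Finset.sum_const, Finset.card_univ, Fintype.card_prod, Fintype.card_fin, nsmul_eq_mul] at h4
  calc _ ≤ ((M * M : ℕ) : ℝ) * (K * (C * Real.exp (-(c / t)) / t)) / 4 := by gcongr
    _ = _ := by ring

theorem Ph_zero [NeZero M] (h : HCh M φ) {z0 : Gi} (h0 : φ z0 ≠ 0) (h1 : φ z0 ≠ 1) :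
    Ph M φ = 0 := by
  have hco := (h.ne z0).1 h0
  set T : Fin M × Fin M → Fin M × Fin M := fun w => rep M (z0 * lift M w) with hTd
  have hinj : Function.Injective T := by
    intro w w' hw
    have hw' : rep M (z0 * lift M w) = rep M (z0 * lift M w') := hw
    have e1 := rep_re (M := M) (z0 * lift M w)
    have e2 := rep_re (M := M) (z0 * lift M w')
    have e3 := rep_im (M := M) (z0 * lift M w)
    have e4 := rep_im (M := M) (z0 * lift M w')
    rw [hw'] at e1 e3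
    have e5 : (M : Gi) ∣ z0 * (lift M w - lift M w') := by
      rw [natCast_dvd]
      have f1 := dvd_sub e1 e2
      have f2 := dvd_sub e3 e4
      rw [sub_sub_sub_cancel_right] at f1 f2
      constructor
      · have : (z0 * (lift M w - lift M w')).re
            = (z0 * lift M w).re - (z0 * lift M w').re := by
          rw [mul_sub]; rfl
        rw [this]
        exact f1
      · have : (z0 * (lift M w - lift M w')).im
            = (z0 * lift M w).im - (z0 * lift M w').im := by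
          rw [mul_sub]; rfl
        rw [this]
        exact f2
    have e6 : (M : Gi) ∣ lift M w - lift M w' := hco.symm.dvd_of_dvd_mul_left e5
    rw [natCast_dvd] at e6
    exact lift_eq e6.1 e6.2
  have hbij : Function.Bijective T := Finite.injective_iff_bijective.1 hinj
  have e1 : Ph M φ = ∑ w : Fin M × Fin M, φ (lift M (T w)) :=
    (hbij.sum_comp (fun w => φ (lift M w))).symm
  have e2 : ∀ w : Fin M × Fin M, φ (lift M (T w)) = φ z0 * φ (lift M w) := by
    intro w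
    rw [hTd]
    show φ (lift M (rep M (z0 * lift M w))) = _
    rw [phi_rep h, h.mul]
  have e3 : Ph M φ = φ z0 * Ph M φ := by
    conv_lhs => rw [e1]
    rw [Finset.sum_congr rfl fun w _ => e2 w, ← Finset.mul_sum]
    rfl
  have e4 : (1 - φ z0) * Ph M φ = 0 := by linear_combination e3
  rcases mul_eq_zero.1 e4 with h5 | h5
  · exact absurd (sub_eq_zero.1 h5).symm h1
  · exact h5

theorem Ph_ne [NeZero M] (h : HCh M φ) (h1 : ∀ z, φ z ≠ 0 → φ z = 1) : Ph M φ ≠ 0 := by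
  intro h0
  have h2 := congrArg Complex.re h0
  rw [Ph, Complex.re_sum, Complex.zero_re] at h2
  have h3 : ∀ w ∈ (Finset.univ : Finset (Fin M × Fin M)), 0 ≤ (φ (lift M w)).re := by
    intro w _
    by_cases h4 : φ (lift M w) = 0
    · rw [h4]; simp
    · rw [h1 _ h4]; simp
  have h5 := (Finset.sum_eq_zero_iff_of_nonneg h3).1 h2 (rep M 1) (Finset.mem_univ _)
  rw [phi_rep h, h.one] at h5
  simp at h5

theorem phi_zero (h : HCh M φ) {z0 : Gi} (h1 : φ z0 ≠ 1) : φ 0 = 0 := by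
  by_contra h2
  apply h1
  have h3 := h.mul z0 0
  rw [mul_zero] at h3
  have h4 : (1 - φ z0) * φ 0 = 0 := by linear_combination h3
  rcases mul_eq_zero.1 h4 with h5 | h5
  · exact (sub_eq_zero.1 h5).symm
  · exact absurd h5 h2

end

theorem lcon (hT : S_THETA) : S_LCON := by
  intro M φ hM h
  have : NeZero M := ⟨by omega⟩
  obtain ⟨c, C, hc, hb⟩ := asym3 hT h
  obtain ⟨H, hH, hHs⟩ := core (aL φ) aL_zero (fun σ hσ => aL_summ h hσ) _ _ c C hc hb
  have hGd : Differentiable ℂ fun s : ℂ => (Complex.Gamma s)⁻¹ :=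
    Complex.differentiable_one_div_Gamma
  constructor
  · rintro ⟨z0, h0, h1⟩
    refine ⟨fun s => (Complex.Gamma s)⁻¹ * H s, hGd.mul hH, fun s hs => ?_⟩
    obtain ⟨h2, h3⟩ := hHs s hs
    refine ⟨h2, ?_⟩
    have hG0 : Complex.Gamma s ≠ 0 := Complex.Gamma_ne_zero_of_re_pos (by linarith)
    rw [Ph_zero h h0 h1, phi_zero h h1] at h3
    simp only [mul_zero, neg_zero, zero_div, add_zero] at h3
    show (Complex.Gamma s)⁻¹ * H s = _
    rw [← h3, inv_mul_cancel_left₀ hG0]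
  · intro h1
    set A : ℂ := ((Real.pi / (4 * (M : ℝ) ^ 2) : ℝ) : ℂ) * Ph M φ with hA
    have hA0 : A ≠ 0 := by
      rw [hA]
      refine mul_ne_zero ?_ (Ph_ne h h1)
      have hM0 : (0 : ℝ) < M := by exact_mod_cast hM
      exact_mod_cast (by positivity : (0 : ℝ) < Real.pi / (4 * (M : ℝ) ^ 2)).ne'
    refine ⟨fun s => (Complex.Gamma s)⁻¹ * ((s - 1) * H s + A)
      + -(φ 0) / 4 * ((s - 1) * (Complex.Gamma (s + 1))⁻¹), ?_, ?_, fun s hs => ?_⟩
    · refine (hGd.mul (((differentiable_id.sub_const 1).mul hH).add_const A)).add ?_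
      refine Differentiable.const_mul ?_ _
      refine (differentiable_id.sub_const 1).mul ?_
      exact hGd.comp (differentiable_id.add_const 1)
    · simp only [sub_self, zero_mul, zero_add, mul_zero, add_zero, Complex.Gamma_one, inv_one,
        one_mul]
      exact hA0
    · obtain ⟨h2, h3⟩ := hHs s hs
      refine ⟨h2, ?_⟩
      have hG0 : Complex.Gamma s ≠ 0 := Complex.Gamma_ne_zero_of_re_pos (by linarith)
      have hs0 : s ≠ 0 := by
        intro h0; rw [h0, Complex.zero_re] at hs; linarith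
      have hs1 : s - 1 ≠ 0 := by
        intro h0
        have : s = 1 := sub_eq_zero.1 h0
        rw [this, Complex.one_re] at hs
        linarith
      have h4 : LSeries (aL φ) s = (Complex.Gamma s)⁻¹ * (H s + (A / (s - 1) + -(φ 0) / 4 / s)) := by
        rw [← h3, inv_mul_cancel_left₀ hG0]
      show (Complex.Gamma s)⁻¹ * ((s - 1) * H s + A)
        + -(φ 0) / 4 * ((s - 1) * (Complex.Gamma (s + 1))⁻¹) = _
      rw [h4, Complex.Gamma_add_one s hs0]
      field_simp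
      ring

end Pool.Agent.W85.EC
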