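import Mathlib

/-! # EC-P2: Dirichlet series whose theta function has an expansion at `0` -/

set_option autoImplicit false
set_option maxHeartbeats 4000000

open Set Filter Topology MeasureTheory Complex Asymptotics

namespace Pool.Agent.W85.EC

/-- the theta function -/
noncomputable def Fth (a : ℕ → ℂ) (t : ℝ) : ℂ := ∑' n : ℕ, a n * ((Real.exp (-(n : ℝ) * t) : ℝ) : ℂ)

theorem exp_bd {n : ℕ} {t : ℝ} (ht : 0 < t) (hn : n ≠ 0) :
    Real.exp (-(n : ℝ) * t) ≤ 2 / t ^ 2 * (1 / (n : ℝ) ^ (2 : ℝ)) := by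
  have hn0 : (0 : ℝ) < n := by exact_mod_cast Nat.pos_of_ne_zero hn
  have h1 : (n * t) ^ 2 / 2 ≤ Real.exp (n * t) := by
    have := Real.quadratic_le_exp_of_nonneg (by positivity : 0 ≤ (n : ℝ) * t)
    nlinarith [mul_pos hn0 ht]
  have h2 : (n : ℝ) ^ (2 : ℝ) = (n : ℝ) ^ 2 := by
    rw [← Real.rpow_natCast]; norm_num
  rw [h2, neg_mul, Real.exp_neg, div_mul_div_comm, mul_one, inv_eq_one_div,
    div_le_div_iff₀ (Real.exp_pos _) (by positivity)]
  nlinarith

theorem summ {a : ℕ → ℂ} (ha0 : a 0 = 0)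
    (hs : Summable fun n : ℕ => ‖a n‖ / (n : ℝ) ^ (2 : ℝ)) {t : ℝ} (ht : 0 < t) :
    Summable fun n : ℕ => ‖a n‖ * Real.exp (-(n : ℝ) * t) := by
  refine Summable.of_nonneg_of_le (fun n => by positivity) (fun n => ?_) (hs.mul_left (2 / t ^ 2))
  by_cases hn : n = 0
  · subst hn; simp [ha0]
  · calc ‖a n‖ * Real.exp (-(n : ℝ) * t) ≤ ‖a n‖ * (2 / t ^ 2 * (1 / (n : ℝ) ^ (2 : ℝ))) :=
          mul_le_mul_of_nonneg_left (exp_bd ht hn) (norm_nonneg _)
      _ = _ := by ring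

theorem norm_term (a : ℕ → ℂ) (n : ℕ) (t : ℝ) :
    ‖a n * ((Real.exp (-(n : ℝ) * t) : ℝ) : ℂ)‖ = ‖a n‖ * Real.exp (-(n : ℝ) * t) := by
  rw [norm_mul, Complex.norm_real, Real.norm_of_nonneg (Real.exp_pos _).le]

theorem Fth_hasSum {a : ℕ → ℂ} (ha0 : a 0 = 0)
    (hs : Summable fun n : ℕ => ‖a n‖ / (n : ℝ) ^ (2 : ℝ)) {t : ℝ} (ht : 0 < t) :
    HasSum (fun n : ℕ => a n * ((Real.exp (-(n : ℝ) * t) : ℝ) : ℂ)) (Fth a t) := by
  apply Summable.hasSum
  apply Summable.of_norm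
  simp_rw [norm_term]
  exact summ ha0 hs ht

theorem Fth_cont {a : ℕ → ℂ} (ha0 : a 0 = 0)
    (hs : Summable fun n : ℕ => ‖a n‖ / (n : ℝ) ^ (2 : ℝ)) : ContinuousOn (Fth a) (Ioi 0) := by
  intro x hx
  have hx0 : (0 : ℝ) < x := hx
  have h1 : ContinuousOn (Fth a) (Ioi (x / 2)) := by
    unfold Fth
    refine continuousOn_tsum (u := fun n : ℕ => ‖a n‖ * Real.exp (-(n : ℝ) * (x / 2)))
      (fun n => ?_) (summ ha0 hs (by positivity)) (fun n t ht => ?_)
    · fun_prop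
    · rw [norm_term]
      have ht' : x / 2 < t := ht
      have : -(n : ℝ) * t ≤ -(n : ℝ) * (x / 2) := by
        have : (0 : ℝ) ≤ n := Nat.cast_nonneg n
        nlinarith
      gcongr
  exact (h1.continuousAt (Ioi_mem_nhds (by linarith))).continuousWithinAt

theorem Fth_top {a : ℕ → ℂ} (ha0 : a 0 = 0)
    (hs : Summable fun n : ℕ => ‖a n‖ / (n : ℝ) ^ (2 : ℝ)) (r : ℝ) :
    (Fth a) =O[atTop] (fun t : ℝ => t ^ r) := by
  have h1 : (Fth a) =O[atTop] (fun t : ℝ => Real.exp (-1 * t)) := by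
    refine IsBigO.of_bound (Real.exp 1 * ∑' n : ℕ, ‖a n‖ * Real.exp (-(n : ℝ) * 1)) ?_
    filter_upwards [eventually_ge_atTop (1 : ℝ)] with t ht
    have ht0 : 0 < t := by linarith
    have h2 : ‖Fth a t‖ ≤ ∑' n : ℕ, ‖a n‖ * Real.exp (-(n : ℝ) * t) := by
      unfold Fth
      refine (norm_tsum_le_tsum_norm ?_).trans (le_of_eq (tsum_congr fun n => norm_term a n t))
      simp_rw [norm_term]
      exact summ ha0 hs ht0
    refine h2.trans ?_
    rw [Real.norm_of_nonneg (Real.exp_pos _).le]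
    have h3 : Real.exp 1 * (∑' n : ℕ, ‖a n‖ * Real.exp (-(n : ℝ) * 1)) * Real.exp (-1 * t)
        = ∑' n : ℕ, (Real.exp 1 * Real.exp (-1 * t)) * (‖a n‖ * Real.exp (-(n : ℝ) * 1)) := by
      rw [tsum_mul_left]; ring
    rw [h3]
    refine Summable.tsum_le_tsum (fun n => ?_) (summ ha0 hs ht0)
      ((summ ha0 hs one_pos).mul_left _)
    by_cases hn : n = 0
    · subst hn; simp [ha0]
    · have hn1 : (1 : ℝ) ≤ n := by exact_mod_cast Nat.one_le_iff_ne_zero.mpr hn
      have e1 : (Real.exp 1 * Real.exp (-1 * t)) * (‖a n‖ * Real.exp (-(n : ℝ) * 1))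
          = ‖a n‖ * Real.exp (1 + -1 * t + -(n : ℝ) * 1) := by
        rw [Real.exp_add, Real.exp_add]; ring
      rw [e1]
      apply mul_le_mul_of_nonneg_left _ (norm_nonneg _)
      apply Real.exp_le_exp.mpr
      nlinarith
  exact h1.trans (isLittleO_exp_neg_mul_rpow_atTop one_pos r).isBigO

/-- the subtracted part -/
noncomputable def Ki (A B : ℂ) : ℝ → ℂ := fun t =>
  A • (Ioc (0 : ℝ) 1).indicator (fun t : ℝ => (t : ℂ) ^ (-1 : ℂ)) t
    + B • (Ioc (0 : ℝ) 1).indicator (fun _ => (1 : ℂ)) t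

theorem Ki_mellin (A B : ℂ) {s : ℂ} (hs : 1 < s.re) :
    HasMellin (Ki A B) s (A / (s - 1) + B / s) := by
  have h1 := hasMellin_cpow_Ioc (-1) (s := s) (by simp; linarith)
  have h2 := hasMellin_one_Ioc (s := s) (by linarith)
  have h3 := hasMellin_const_smul h1.1 A
  have h4 := hasMellin_const_smul h2.1 B
  have h5 := hasMellin_add h3.1 h4.1
  rw [h3.2, h4.2, h1.2, h2.2] at h5
  have e : A / (s - 1) + B / s = A • (1 / (s + -1)) + B • (1 / s) := by
    rw [smul_eq_mul, smul_eq_mul, ← sub_eq_add_neg]; ring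
  rw [e]
  exact h5

theorem Ki_int (A B : ℂ) : LocallyIntegrableOn (Ki A B) (Ioi 0) := by
  have h1 : LocallyIntegrableOn (fun t : ℝ => (t : ℂ) ^ (-1 : ℂ)) (Ioi 0) := by
    refine ContinuousOn.locallyIntegrableOn ?_ measurableSet_Ioi
    refine continuousOn_of_forall_continuousAt (fun x (hx : 0 < x) ↦ ?_)
    exact (continuousAt_ofReal_cpow_const x (-1) (Or.inr hx.ne'))
  have h2 : LocallyIntegrableOn (fun _ : ℝ => (1 : ℂ)) (Ioi 0) := locallyIntegrableOn_const _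
  refine LocallyIntegrableOn.add ?_ ?_
  · refine LocallyIntegrableOn.smul ?_ A
    intro x hx
    obtain ⟨s, hs, hs'⟩ := h1 x hx
    exact ⟨s, hs, hs'.indicator measurableSet_Ioc⟩
  · refine LocallyIntegrableOn.smul ?_ B
    intro x hx
    obtain ⟨s, hs, hs'⟩ := h2 x hx
    exact ⟨s, hs, hs'.indicator measurableSet_Ioc⟩

theorem core (a : ℕ → ℂ) (ha0 : a 0 = 0)
    (hs : ∀ σ : ℝ, 1 < σ → Summable fun n : ℕ => ‖a n‖ / (n : ℝ) ^ σ) (A B : ℂ) (c C : ℝ)
    (hc : 0 < c) (hasym : ∀ t : ℝ, 0 < t → t ≤ 1 →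
      ‖Fth a t - (A / t + B)‖ ≤ C * Real.exp (-(c / t)) / t) :
    ∃ H : ℂ → ℂ, Differentiable ℂ H ∧ ∀ s : ℂ, 1 < s.re → LSeriesSummable a s ∧
      Gamma s * LSeries a s = H s + (A / (s - 1) + B / s) := by
  have hs2 := hs 2 (by norm_num)
  set G : ℝ → ℂ := fun t => Fth a t - Ki A B t with hG
  have hGint : LocallyIntegrableOn G (Ioi 0) :=
    ((Fth_cont ha0 hs2).locallyIntegrableOn measurableSet_Ioi).sub (Ki_int A B)
  have hGtop : ∀ r : ℝ, G =O[atTop] (fun t : ℝ => t ^ r) := by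
    intro r
    refine (Fth_top ha0 hs2 r).congr' ?_ EventuallyEq.rfl
    filter_upwards [eventually_gt_atTop (1 : ℝ)] with t ht
    have h1 : t ∉ Ioc (0 : ℝ) 1 := fun h => absurd h.2 (not_le.2 ht)
    simp only [hG, Ki, indicator_of_notMem h1, smul_zero, add_zero, sub_zero]
  have hGbot : ∀ r : ℝ, G =O[𝓝[>] 0] (fun t : ℝ => t ^ r) := by
    intro r
    have h1 : G =O[𝓝[>] 0] (fun t : ℝ => Real.exp (-c * t⁻¹) * t⁻¹) := by
      refine IsBigO.of_bound |C| ?_
      filter_upwards [Ioc_mem_nhdsGT (zero_lt_one' ℝ)] with t ht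
      have h2 : G t = Fth a t - (A / t + B) := by
        simp only [hG, Ki, indicator_of_mem ht, smul_eq_mul, mul_one, cpow_neg_one]
        rw [div_eq_mul_inv]
      have ht0 : 0 < t := ht.1
      rw [h2]
      refine (hasym t ht.1 ht.2).trans ?_
      rw [Real.norm_of_nonneg (by positivity)]
      have h3 : C * Real.exp (-(c / t)) / t = C * (Real.exp (-c * t⁻¹) * t⁻¹) := by
        rw [show -(c / t) = -c * t⁻¹ by ring]; ring
      rw [h3]
      exact mul_le_mul_of_nonneg_right (le_abs_self C) (by positivity)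
    refine h1.trans ?_
    have h4 : (fun t : ℝ => Real.exp (-c * t⁻¹)) =O[𝓝[>] 0] (fun t : ℝ => t⁻¹ ^ (-(r + 1))) :=
      ((isLittleO_exp_neg_mul_rpow_atTop hc (-(r + 1))).comp_tendsto
        tendsto_inv_nhdsGT_zero).isBigO
    have h5 := h4.mul (isBigO_refl (fun t : ℝ => t⁻¹) (𝓝[>] 0))
    refine h5.congr' EventuallyEq.rfl ?_
    filter_upwards [self_mem_nhdsWithin] with t ht
    have ht0 : (0 : ℝ) < t := ht
    rw [Real.inv_rpow ht0.le, Real.rpow_neg ht0.le, inv_inv, Real.rpow_add ht0, Real.rpow_one]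
    field_simp
  refine ⟨mellin G, ?_, ?_⟩
  · intro s
    obtain ⟨x, hx⟩ := exists_gt s.re
    obtain ⟨y, hy⟩ := exists_lt s.re
    exact mellin_differentiableAt_of_isBigO_rpow hGint (hGtop _) hx (hGbot _) hy
  · intro s hre
    have hmc : MellinConvergent G s := by
      obtain ⟨x, hx⟩ := exists_gt s.re
      obtain ⟨y, hy⟩ := exists_lt s.re
      exact mellinConvergent_of_isBigO_rpow hGint (hGtop _) hx (hGbot _) hy
    have hK := Ki_mellin A B hre
    have hF := hasMellin_add hmc hK.1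
    have hFe : (fun t => G t + Ki A B t) = Fth a := by
      funext t; simp only [hG]; ring
    rw [hFe, hK.2] at hF
    have hp : ∀ n : ℕ, a n = 0 ∨ 0 < (n : ℝ) := by
      intro n
      by_cases hn : n = 0
      · left; rw [hn, ha0]
      · right; exact_mod_cast Nat.pos_of_ne_zero hn
    have hsum := hasSum_mellin hp (by linarith : 0 < s.re)
      (fun t ht => Fth_hasSum ha0 hs2 ht) (hs s.re hre)
    have hG0 : Gamma s ≠ 0 := Gamma_ne_zero_of_re_pos (by linarith)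
    have hterm : ∀ n, LSeries.term a s n = (Gamma s)⁻¹ * (Gamma s * a n / ((n : ℝ) : ℂ) ^ s) := by
      intro n
      rw [LSeries.term_def]
      split_ifs with hn
      · rw [hn, ha0]; simp
      · push_cast
        field_simp
    have hsum2 : HasSum (LSeries.term a s) ((Gamma s)⁻¹ * mellin (Fth a) s) := by
      have := hsum.mul_left (Gamma s)⁻¹
      refine this.congr_fun fun n => ?_
      exact hterm n
    refine ⟨hsum2.summable, ?_⟩
    rw [LSeries, hsum2.tsum_eq, ← mul_assoc, mul_inv_cancel₀ hG0, one_mul, hF.2]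

end Pool.Agent.W85.EC
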