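import Pool.Agent.W78.EC.Defs2
import Pool.Agent.W85.EC.Mel

/-! # EC-P2: sums over the Gaussian integers -/

set_option autoImplicit false
set_option maxHeartbeats 4000000

open Filter Topology

namespace Pool.Agent.W85.EC

open Pool.Agent.W78.GA Pool.Agent.W78.EC

theorem hD : (0 : ℤ) ^ 2 < 4 * 1 := by norm_num

theorem nmR (z : Gi) : (nm z : ℝ) = (z.re : ℝ) ^ 2 + (z.im : ℝ) ^ 2 := by
  rw [nm_castR hD]; push_cast; ring

open scoped Classical in
/-- the elements of norm `n` -/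
noncomputable def fib (n : ℕ) : Finset Gi :=
  if n = 0 then {0} else (ball 0 1 n).filter (fun z => nm z = n)

theorem mem_fib {n : ℕ} {z : Gi} : z ∈ fib n ↔ nm z = n := by
  unfold fib
  split_ifs with h
  · rw [Finset.mem_singleton, h, nm_eq_zero hD]
  · rw [Finset.mem_filter, mem_ball hD]
    constructor
    · exact fun h => h.2
    · intro h'
      exact ⟨⟨by omega, by rw [h']⟩, h'⟩

theorem fiber {E : Type} [NormedAddCommGroup E] [CompleteSpace E] {g : Gi → E} {S : E} (hg : HasSum g S) :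
    HasSum (fun n => ∑ z ∈ fib n, g z) S := by
  have h1 := hg.tsum_fiberwise (fun z : Gi => nm z)
  refine h1.congr_fun fun n => ?_
  have h2 : ((fun z : Gi => nm z) ⁻¹' {n}) = (fib n : Set Gi) := by
    ext z; simp [mem_fib]
  rw [h2]
  exact (Finset.tsum_subtype' (fib n) g).symm

/-- coordinates -/
def crd : Gi ≃ (Fin 2 → ℤ) where
  toFun z := ![z.re, z.im]
  invFun x := ⟨x 0, x 1⟩
  left_inv z := rfl
  right_inv x := by
    funext i; fin_cases i <;> rfl

theorem nm_ge (z : Gi) : ‖crd z‖ ^ 2 ≤ (nm z : ℝ) := by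
  rw [nmR]
  have h : ‖crd z‖ ≤ Real.sqrt ((z.re : ℝ) ^ 2 + (z.im : ℝ) ^ 2) := by
    rw [pi_norm_le_iff_of_nonneg (Real.sqrt_nonneg _)]
    intro i
    apply Real.le_sqrt_of_sq_le
    fin_cases i
    · show ‖z.re‖ ^ 2 ≤ _
      rw [Int.norm_eq_abs, sq_abs]
      nlinarith [sq_nonneg (z.im : ℝ)]
    · show ‖z.im‖ ^ 2 ≤ _
      rw [Int.norm_eq_abs, sq_abs]
      nlinarith [sq_nonneg (z.re : ℝ)]
  calc ‖crd z‖ ^ 2 ≤ (Real.sqrt ((z.re : ℝ) ^ 2 + (z.im : ℝ) ^ 2)) ^ 2 := by gcongr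
    _ = _ := Real.sq_sqrt (by positivity)

theorem summ_nm {σ : ℝ} (hσ : 1 < σ) : Summable fun z : Gi => (nm z : ℝ) ^ (-σ) := by
  have h1 : Summable fun x : Fin 2 → ℤ => ‖x‖ ^ (-(2 * σ)) :=
    EisensteinSeries.summable_one_div_norm_rpow (by linarith)
  have h2 : Summable fun z : Gi => ‖crd z‖ ^ (-(2 * σ)) := crd.summable_iff.2 h1
  refine Summable.of_nonneg_of_le (fun z => by positivity) (fun z => ?_) h2
  by_cases hz : z = 0
  · subst hz
    have : (nm (0 : Gi)) = 0 := (nm_eq_zero hD).2 rfl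
    rw [this, Nat.cast_zero, Real.zero_rpow (by linarith)]
    positivity
  · have h3 : 0 < ‖crd z‖ := by
      rw [norm_pos_iff]
      intro h
      apply hz
      have : crd z = crd 0 := by rw [h]; funext i; fin_cases i <;> rfl
      exact crd.injective this
    have h4 : ‖crd z‖ ^ (-(2 * σ)) = (‖crd z‖ ^ 2) ^ (-σ) := by
      rw [← Real.rpow_natCast, ← Real.rpow_mul h3.le]
      congr 1; push_cast; ring
    rw [h4]
    exact Real.rpow_le_rpow_of_nonpos (by positivity) (nm_ge z) (by linarith)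

theorem summ_exp {t : ℝ} (ht : 0 < t) : Summable fun z : Gi => Real.exp (-(nm z : ℝ) * t) := by
  have h1 := (summ_nm (σ := 2) (by norm_num)).mul_left (2 / t ^ 2)
  have h2 : Summable fun z : Gi => if z = 0 then (1 : ℝ) else 0 :=
    (hasSum_ite_eq (0 : Gi) (1 : ℝ)).summable
  refine Summable.of_nonneg_of_le (fun z => (Real.exp_pos _).le) (fun z => ?_) (h1.add h2)
  by_cases hz : z = 0
  · subst hz
    have : (nm (0 : Gi)) = 0 := (nm_eq_zero hD).2 rfl
    rw [this, if_pos rfl]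
    simp
  · rw [if_neg hz, add_zero]
    have h3 := exp_bd ht (n := nm z) (fun h => hz ((nm_eq_zero hD).1 h))
    rw [Real.rpow_neg (by positivity), ← one_div]
    exact h3

section

variable {M : ℕ} {φ : Gi → ℂ}

/-- the classes -/
def lift (M : ℕ) (w : Fin M × Fin M) : Gi := ⟨((w.1 : ℕ) : ℤ), ((w.2 : ℕ) : ℤ)⟩

/-- reduction -/
def rep (M : ℕ) [NeZero M] (z : Gi) : Fin M × Fin M :=
  ((Int.divModEquiv M z.re).2, (Int.divModEquiv M z.im).2)

theorem dm [NeZero M] (a : ℤ) :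
    a = (Int.divModEquiv M a).1 * M + (((Int.divModEquiv M a).2 : ℕ) : ℤ) := by
  have := (Int.divModEquiv M).symm_apply_apply a
  rw [Int.divModEquiv_symm_apply] at this
  exact this.symm

theorem rep_re [NeZero M] (z : Gi) : (M : ℤ) ∣ z.re - (lift M (rep M z)).re := by
  have := dm (M := M) z.re
  refine ⟨(Int.divModEquiv M z.re).1, ?_⟩
  show z.re - (((Int.divModEquiv M z.re).2 : ℕ) : ℤ) = _
  linear_combination this

theorem rep_im [NeZero M] (z : Gi) : (M : ℤ) ∣ z.im - (lift M (rep M z)).im := by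
  have := dm (M := M) z.im
  refine ⟨(Int.divModEquiv M z.im).1, ?_⟩
  show z.im - (((Int.divModEquiv M z.im).2 : ℕ) : ℤ) = _
  linear_combination this

theorem phi_rep [NeZero M] (h : HCh M φ) (z : Gi) : φ (lift M (rep M z)) = φ z :=
  (h.per _ _ (rep_re z) (rep_im z)).symm

theorem fin_eq {a b : Fin M} (h : (M : ℤ) ∣ ((a : ℕ) : ℤ) - ((b : ℕ) : ℤ)) : a = b := by
  have h1 := Int.eq_zero_of_abs_lt_dvd h (by
    rw [abs_lt]
    have := a.2
    have := b.2
    constructor <;> omega)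
  exact Fin.ext (by omega)

theorem lift_eq {w w' : Fin M × Fin M} (h1 : (M : ℤ) ∣ (lift M w).re - (lift M w').re)
    (h2 : (M : ℤ) ∣ (lift M w).im - (lift M w').im) : w = w' :=
  Prod.ext (fin_eq h1) (fin_eq h2)

theorem bounded [NeZero M] (h : HCh M φ) : ∃ K : ℝ, 0 ≤ K ∧ ∀ z, ‖φ z‖ ≤ K := by
  refine ⟨∑ w : Fin M × Fin M, ‖φ (lift M w)‖, Finset.sum_nonneg fun _ _ => norm_nonneg _,
    fun z => ?_⟩
  rw [← phi_rep h z]
  exact Finset.single_le_sum (f := fun w : Fin M × Fin M => ‖φ (lift M w)‖)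
    (fun _ _ => norm_nonneg _) (Finset.mem_univ (rep M z))

theorem aL_zero : aL φ 0 = 0 := by
  unfold aL
  have : (ball 0 1 ((0 : ℕ) : ℝ)).filter (fun z : Gi => nm z = 0) = ∅ := by
    rw [Finset.filter_eq_empty_iff]
    intro z hz
    rw [mem_ball hD] at hz
    omega
  rw [this]; simp

theorem aL_eq {n : ℕ} (hn : n ≠ 0) : aL φ n = (∑ z ∈ fib n, φ z) / 4 := by
  classical
  unfold aL fib
  rw [if_neg hn]

theorem aL_summ [NeZero M] (h : HCh M φ) {σ : ℝ} (hσ : 1 < σ) :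
    Summable fun n : ℕ => ‖aL φ n‖ / (n : ℝ) ^ σ := by
  obtain ⟨K, hK0, hK⟩ := bounded h
  have h1 := (fiber (summ_nm hσ).hasSum).summable.mul_left (K / 4)
  refine Summable.of_nonneg_of_le (fun n => by positivity) (fun n => ?_) h1
  by_cases hn : n = 0
  · subst hn
    rw [aL_zero, norm_zero, zero_div]
    exact mul_nonneg (by positivity) (Finset.sum_nonneg fun _ _ => by positivity)
  · rw [aL_eq hn, norm_div, Complex.norm_ofNat]
    have h2 : ‖∑ z ∈ fib n, φ z‖ ≤ ∑ z ∈ fib n, K :=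
      (norm_sum_le _ _).trans (Finset.sum_le_sum fun z _ => hK z)
    have h3 : ∑ z ∈ fib n, (nm z : ℝ) ^ (-σ) = ∑ z ∈ fib n, ((n : ℝ) ^ σ)⁻¹ :=
      Finset.sum_congr rfl fun z hz => by
        rw [mem_fib.1 hz, Real.rpow_neg (by positivity)]
    rw [h3]
    rw [Finset.sum_const, nsmul_eq_mul] at h2 ⊢
    have hn0 : (0 : ℝ) < (n : ℝ) ^ σ := by positivity
    calc ‖∑ z ∈ fib n, φ z‖ / 4 / (n : ℝ) ^ σ ≤ ((fib n).card * K) / 4 / (n : ℝ) ^ σ := by gcongr
      _ = _ := by field_simp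

/-- the theta function of `φ` -/
theorem theta_eq [NeZero M] (h : HCh M φ) {t : ℝ} (ht : 0 < t) :
    HasSum (fun z : Gi => φ z * ((Real.exp (-(nm z : ℝ) * t) : ℝ) : ℂ))
      (4 * Fth (aL φ) t + φ 0) := by
  obtain ⟨K, hK0, hK⟩ := bounded h
  have hs : Summable (fun z : Gi => φ z * ((Real.exp (-(nm z : ℝ) * t) : ℝ) : ℂ)) := by
    apply Summable.of_norm
    refine Summable.of_nonneg_of_le (fun z => norm_nonneg _) (fun z => ?_)
      ((summ_exp ht).mul_left K)
    rw [norm_mul, Complex.norm_real, Real.norm_of_nonneg (Real.exp_pos _).le]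
    exact mul_le_mul_of_nonneg_right (hK z) (Real.exp_pos _).le
  have h1 := fiber hs.hasSum
  have h2 := (Fth_hasSum (aL_zero (φ := φ)) (aL_summ h (by norm_num)) ht).mul_left 4
  have h3 := h2.add (hasSum_ite_eq (0 : ℕ) (φ 0))
  have h4 : (fun n : ℕ => ∑ z ∈ fib n, φ z * ((Real.exp (-(nm z : ℝ) * t) : ℝ) : ℂ))
      = fun n : ℕ => 4 * (aL φ n * ((Real.exp (-(n : ℝ) * t) : ℝ) : ℂ))
        + (if n = 0 then φ 0 else 0) := by
    funext n
    by_cases hn : n = 0
    · subst hn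
      have : fib 0 = {0} := by unfold fib; rw [if_pos rfl]
      rw [this, Finset.sum_singleton, aL_zero, if_pos rfl]
      have : (nm (0 : Gi)) = 0 := (nm_eq_zero hD).2 rfl
      rw [this]; simp
    · rw [if_neg hn, aL_eq hn, add_zero]
      have : ∀ z ∈ fib n, φ z * ((Real.exp (-(nm z : ℝ) * t) : ℝ) : ℂ)
          = φ z * ((Real.exp (-(n : ℝ) * t) : ℝ) : ℂ) := fun z hz => by rw [mem_fib.1 hz]
      rw [Finset.sum_congr rfl this, ← Finset.sum_mul]
      ring
  rw [h4] at h1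
  have h5 := h1.unique h3
  rw [← h5]
  exact hs.hasSum

end

end Pool.Agent.W85.EC
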